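import Mathlib
import Pool.Agent.V8H23.TM.Five
import Pool.Agent.V8H23.TM.Nine

/-!
# MP_1a5b88_nt, Q2: the 2-adic valuations of the coefficients of the 5th and 9th powers

`t m n` is the coefficient of `x^n` in `∏_{i ≥ 0} (1 - x^(2^i))^m`.  For all `n`, with
`v = ν₂(n + 1)`,

* `ν₂(t_5(4 n + j)) = 4 ⌈v / 2⌉ - (v mod 2)` for `j = 0, 1, 2, 3`;
* `ν₂(t_9(8 n + j)) = 5 ⌈v / 2⌉ - 2 (v mod 2)` for `j = 0, 1, ..., 7`.

So Q2 has a positive answer.

Proof.  Put `m = 2^k + 1`, `k = 2` or `3`.  The window `(t_m(z - i))`, `i < 2^k`, is multiplied by a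
fixed integer matrix `M` when `z` is replaced by `2 z + 1`.  If `n + 1 = 2^v (2 b + 1)` then the
window ending at `2^k n + 2^k - 1` is `R_v x`, where `x` is the window of the `m` coefficients ending at
`b` and `R_v = M^v R_0`.  By the characteristic polynomial of `M` the matrices `R_v` satisfy
`R_{v+4} = 80 R_{v+2} - 1024 R_v` for `m = 5`, and
`R_{v+8} = 6560 R_{v+6} - 8472576 R_{v+4} + 2235564032 R_{v+2} - 68719476736 R_v` for `m = 9`.
For the first `2^k` values of `v` all rows of `R_v` are congruent to `2^e (1, 0, ..., 0, 1)` modulo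
`2^(e+1)`, where `e` is the asserted exponent, and `t_m(b) + t_m(b - 2^k)` is odd for all `b ≥ 0`.
-/

set_option autoImplicit false

namespace Pool.Agent.Results.MP_1a5b88_nt.ExplicitCases

open Finset Polynomial

/-- `t m n` is the coefficient of `x^n` in `∏_{i ≥ 0} (1 - x^(2^i))^m`.  The factors with `i > n`
do not contribute to this coefficient, so the product may be cut at `i ≤ n` (see the first part of
the theorem). -/
noncomputable def t (m n : ℕ) : ℤ := (∏ i ∈ range (n + 1), (1 - (X : ℤ[X]) ^ (2 ^ i)) ^ m).coeff n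

theorem result :
    -- the coefficient does not depend on where the product is cut
    (∀ m n N : ℕ, n < 2 ^ N → (∏ i ∈ range N, (1 - (X : ℤ[X]) ^ (2 ^ i)) ^ m).coeff n = t m n) ∧
    -- the case `k = 2`
    (∀ n j : ℕ, j < 4 → emultiplicity (2 : ℤ) (t 5 (4 * n + j)) =
      ((4 * ((padicValNat 2 (n + 1) + 1) / 2) - padicValNat 2 (n + 1) % 2 : ℕ) : ℕ∞)) ∧
    -- the case `k = 3`
    (∀ n j : ℕ, j < 8 → emultiplicity (2 : ℤ) (t 9 (8 * n + j)) =
      ((5 * ((padicValNat 2 (n + 1) + 1) / 2) - 2 * (padicValNat 2 (n + 1) % 2) : ℕ) : ℕ∞)) := by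
  refine ⟨?_, ?_, ?_⟩
  · intro m n N h
    have h1 := Pool.Agent.Results.MP_1a5b88_nt.NotDetermined.t_eq (m := m) h
    unfold Pool.Agent.Results.MP_1a5b88_nt.NotDetermined.c at h1
    rw [if_neg (by omega), Int.toNat_natCast] at h1
    exact h1.symm
  · intro n j hj
    exact Pool.Agent.V8H23.TM.Five.main n j hj
  · intro n j hj
    exact Pool.Agent.V8H23.TM.Nine.main n j hj

end Pool.Agent.Results.MP_1a5b88_nt.ExplicitCases
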